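import Mathlib
import Pool.Agent.W981.Aff.Points

/-!
# Certificates for the rank of matrices with an arbitrary part and an almost rank one part

Let `K` be a field of characteristic zero.  We consider matrices

  `L = B(s) + ∑ t_k A_k(s)`

with polynomial entries in two groups of variables, `s = (s_l : l ∈ β)` and `t = (t_k : k ∈ σ)`.
The dependence on the variables `s` is arbitrary.  The matrix is affine linear in the variables `t`,
and `∑ (rank A_k - 1) ≤ c`, so that most of the `A_k` have rank one.  The matrix `B` is arbitrary.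

First let `β` be empty, so that `B` and the `A_k` are matrices over `K`.  Put
`ℬ U = B U + ∑ A_k U` for a subspace `U` of `K^n`, and let `F = K(t)`.  For all `U₁, U₂` one has

  `rank L ≤ n - dim U₂ + dim (L (U₂ ⊗ F) + ℬ U₁ ⊗ F)`.

We prove that equality holds for some pair `U₁ ≤ U₂` with `dim U₂/U₁ ≤ 16c` and
`dim ℬ U₂/ℬ U₁ ≤ 17c`, if the span of the `A_k` has codimension at most `c` in a space which is
spanned by matrices of rank at most one.  The right hand side for such a pair can be found from the
ranks of `A(λ) = B + ∑ λ_k A_k` on `U₂` modulo `ℬ U₁` for the integer points `λ ≥ 0` with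
`∑ λ_k ≤ 16c`.  In the general case we take one pair for each integer point `s ≥ 0` of small
weight.

The proof: let `Z` be the kernel of `L` over `F`, let `X = U₂` be the smallest subspace over `K`
with `Z ≤ X ⊗ F`, let `z ∈ Z` be generic and let `w` be a generic vector orthogonal to `L (X ⊗ F)`.
Write `A_k = ∑ a_k(i) u_i v_iᵀ`.  Differentiating `L z = 0` and `w · L x = 0` up to three times one
obtains identities between the numbers `w · u_i` and `v_i · z` and their derivatives, and a lemma
of linear algebra about these identities shows that the map `x ↦ ((w · u_i) (v_i · x))_i` has rank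
at most `16c` on `X`.
-/

set_option autoImplicit false

open MvPolynomial Matrix Module

namespace Pool.Agent.Results.MP_966f71_lc.AffineBlocks

/-- The rank of a matrix of polynomials over the field of rational functions. -/
noncomputable def symbolicRank {K m n τ : Type*} [Field K] [Fintype m] [Fintype n]
    (M : Matrix m n (MvPolynomial τ K)) : ℕ :=
  (M.map (algebraMap (MvPolynomial τ K) (FractionRing (MvPolynomial τ K)))).rank

/-- The matrix `B + ∑ k, t_k A_k` with entries in `K[t_k : k ∈ σ]`. -/
noncomputable def affineMatrix {K m n σ : Type*} [Field K] [Fintype σ]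
    (B : Matrix m n K) (A : σ → Matrix m n K) : Matrix m n (MvPolynomial σ K) :=
  B.map C + ∑ k, (X k : MvPolynomial σ K) • (A k).map C

/-- The matrix `B(s) + ∑ k, t_k A_k(s)` with entries in `K[s_l, t_k : l ∈ β, k ∈ σ]`. -/
noncomputable def mixedMatrix {K m n β σ : Type*} [Field K] [Fintype σ]
    (B : Matrix m n (MvPolynomial β K)) (A : σ → Matrix m n (MvPolynomial β K)) :
    Matrix m n (MvPolynomial (β ⊕ σ) K) :=
  B.map (rename Sum.inl) + ∑ k, (X (Sum.inr k) : MvPolynomial (β ⊕ σ) K) •
    (A k).map (rename Sum.inl)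

/-- The value at the integer point `s` of a matrix with polynomial entries. -/
noncomputable def valueAt {K m n β : Type*} [Field K] (M : Matrix m n (MvPolynomial β K))
    (s : β → ℕ) : Matrix m n K :=
  M.map (eval fun l => (s l : K))

/-- The subspace `ℬ U = B U + ∑ k, A_k U` of `K^m`. -/
noncomputable def imageSpace {K m n σ : Type*} [Field K] [Fintype n]
    (B : Matrix m n K) (A : σ → Matrix m n K) (U : Submodule K (n → K)) : Submodule K (m → K) :=
  U.map B.mulVecLin ⊔ ⨆ k, U.map (A k).mulVecLin

/-- The extension of scalars `W ⊗ K(t)` of a subspace `W` of `K^n`, a subspace of `K(t)^n`. -/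
noncomputable def extendSpace {K n : Type*} (σ : Type*) [Field K] (W : Submodule K (n → K)) :
    Submodule (FractionRing (MvPolynomial σ K)) (n → FractionRing (MvPolynomial σ K)) :=
  Submodule.span (FractionRing (MvPolynomial σ K))
    ((fun (w : n → K) (i : n) => algebraMap K (FractionRing (MvPolynomial σ K)) (w i)) ''
      (W : Set (n → K)))

/-- The dimension over `K(t)` of `L (U₂ ⊗ K(t)) + (ℬ U₁) ⊗ K(t)`, where `L = B + ∑ t_k A_k`. -/
noncomputable def symbolicDim {K m n σ : Type*} [Field K] [Fintype m] [Fintype n] [Fintype σ]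
    (B : Matrix m n K) (A : σ → Matrix m n K) (U₁ U₂ : Submodule K (n → K)) : ℕ :=
  finrank (FractionRing (MvPolynomial σ K))
    ((extendSpace σ U₂).map ((affineMatrix B A).map
      (algebraMap (MvPolynomial σ K) (FractionRing (MvPolynomial σ K)))).mulVecLin ⊔
        extendSpace σ (imageSpace B A U₁) :
      Submodule (FractionRing (MvPolynomial σ K)) (m → FractionRing (MvPolynomial σ K)))

/-- The dimension over `K` of `A(λ) U₂ + ℬ U₁`, where `A(λ) = B + ∑ λ_k A_k`. -/
noncomputable def pointDim {K m n σ : Type*} [Field K] [Fintype m] [Fintype n] [Fintype σ]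
    (B : Matrix m n K) (A : σ → Matrix m n K) (U₁ U₂ : Submodule K (n → K)) (lam : σ → ℕ) : ℕ :=
  finrank K (U₂.map (B + ∑ k, (lam k : K) • A k).mulVecLin ⊔ imageSpace B A U₁ :
    Submodule K (m → K))

/-- The span of the `A_k` is contained, with codimension at most `c`, in a space which is spanned by
matrices of rank at most one. -/
def NearRankOneSpan {K m n σ : Type*} [Field K] [Fintype m] [Fintype n] (A : σ → Matrix m n K)
    (c : ℕ) : Prop :=
  ∃ R : Set (Matrix m n K), (∀ T ∈ R, T.rank ≤ 1) ∧ (∀ k, A k ∈ Submodule.span K R) ∧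
    finrank K (Submodule.span K R) ≤ finrank K (Submodule.span K (Set.range A)) + c

/-- `U₁ ≤ U₂`, the space `U₂/U₁` has dimension at most `16c`, and the space `ℬ U₂/ℬ U₁` has
dimension at most `17c`. -/
def SmallPair {K m n σ : Type*} [Field K] [Fintype m] [Fintype n] (B : Matrix m n K)
    (A : σ → Matrix m n K) (c : ℕ) (U₁ U₂ : Submodule K (n → K)) : Prop :=
  U₁ ≤ U₂ ∧ finrank K U₂ ≤ finrank K U₁ + 16 * c ∧
    finrank K (imageSpace B A U₂) ≤ finrank K (imageSpace B A U₁) + 17 * c

theorem symbolicRank_eq {K m n σ : Type*} [Field K] [Fintype m] [Fintype n] [Fintype σ]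
    (B : Matrix m n K) (A : σ → Matrix m n K) :
    symbolicRank (affineMatrix B A) = (W981.Aff.gaf B A).rank := by
  classical
  exact (W981.Aff.rank_gaf B A).symm

theorem symbolicDim_eq {K m n σ : Type*} [Field K] [Fintype m] [Fintype n] [Fintype σ]
    (B : Matrix m n K) (A : σ → Matrix m n K) (U₁ U₂ : Submodule K (n → K)) :
    symbolicDim B A U₁ U₂ =
      finrank (W981.Hyp.FF σ K) ((W981.Hyp.ext (W981.Hyp.FF σ K) U₂).map
        (W981.Aff.gaf B A).mulVecLin ⊔ W981.Hyp.ext (W981.Hyp.FF σ K) (W981.Aff.imB B A U₁) :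
        Submodule (W981.Hyp.FF σ K) (m → W981.Hyp.FF σ K)) := by
  classical
  rw [W981.Aff.gaf_eq_afs]
  rfl

theorem upper {K m n σ : Type*} [Field K] [Fintype m] [Fintype n] [Fintype σ]
    (B : Matrix m n K) (A : σ → Matrix m n K) (U₁ U₂ : Submodule K (n → K)) :
    symbolicRank (affineMatrix B A) + finrank K U₂ ≤
      Fintype.card n + symbolicDim B A U₁ U₂ := by
  classical
  rw [symbolicDim_eq, symbolicRank_eq]
  exact W981.Aff.pair_upper B A U₁ U₂

theorem lower {K m n σ : Type*} [Field K] [CharZero K] [Fintype m] [Fintype n] [Fintype σ]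
    (B : Matrix m n K) (A : σ → Matrix m n K) (c : ℕ) (h : NearRankOneSpan A c) :
    ∃ U₁ U₂ : Submodule K (n → K), SmallPair B A c U₁ U₂ ∧
      symbolicRank (affineMatrix B A) + finrank K U₂ =
        Fintype.card n + symbolicDim B A U₁ U₂ := by
  classical
  obtain ⟨R, hR, hA, hc⟩ := h
  obtain ⟨U₁, U₂, h1, h2, h3, h4⟩ := W981.Aff.blocks B A R hR hA c hc
  refine ⟨U₁, U₂, ⟨h1, h2, h3⟩, ?_⟩
  rw [symbolicDim_eq, symbolicRank_eq]
  exact h4

theorem points {K m n σ : Type*} [Field K] [CharZero K] [Fintype m] [Fintype n] [Fintype σ]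
    (B : Matrix m n K) (A : σ → Matrix m n K) (U₁ U₂ : Submodule K (n → K)) (h : U₁ ≤ U₂) :
    (∀ lam, pointDim B A U₁ U₂ lam ≤ symbolicDim B A U₁ U₂) ∧
    ∃ lam : σ → ℕ, finrank K U₁ + ∑ k, lam k ≤ finrank K U₂ ∧
      pointDim B A U₁ U₂ lam = symbolicDim B A U₁ U₂ := by
  classical
  rw [symbolicDim_eq]
  exact ⟨fun lam => W981.Aff.blk_le B A h _, W981.Aff.blk_point B A h⟩

/-- **Result.**  Let `K` be a field of characteristic zero.  (1) Let `B` and `A_k` be matrices over
`K` such that the span of the `A_k` has codimension at most `c` in a space spanned by matrices of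
rank at most one.  Then the rank of `B + ∑ t_k A_k` is the minimum of
`n - dim U₂ + symbolicDim B A U₁ U₂`, and it is attained for a pair `U₁ ≤ U₂` with
`dim U₂/U₁ ≤ 16c` and `dim ℬ U₂/ℬ U₁ ≤ 17c`.  (2) Let `B` and `A_k` be matrices over `K[s]` whose
entries have degree at most `d + 1` and `d` and such that for every integer point `s` the matrices
`A_k(s)` have the property of (1).  Then `rank (B(s) + ∑ t_k A_k(s)) ≤ r` if and only if for all
integer vectors `s ≥ 0` with `∑ s_l ≤ (r + 1)(d + 1)` there is such a pair for the matrices `B(s)`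
and `A_k(s)` with `n - dim U₂ + dim (A(λ) U₂ + ℬ U₁) ≤ r` for all integer vectors `λ ≥ 0` with
`∑ λ_k ≤ 16c`.  (3) The hypothesis of (2) holds if `∑ (rank A_k - 1) ≤ c`. -/
theorem result {K : Type*} [Field K] [CharZero K] :
    (∀ {m n σ : Type} [Fintype m] [Fintype n] [Fintype σ] (B : Matrix m n K)
      (A : σ → Matrix m n K) (c : ℕ), NearRankOneSpan A c →
      (∀ U₁ U₂ : Submodule K (n → K), symbolicRank (affineMatrix B A) + finrank K U₂ ≤
        Fintype.card n + symbolicDim B A U₁ U₂) ∧
      ∃ U₁ U₂ : Submodule K (n → K), SmallPair B A c U₁ U₂ ∧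
        symbolicRank (affineMatrix B A) + finrank K U₂ =
          Fintype.card n + symbolicDim B A U₁ U₂) ∧
    (∀ {m n β σ : Type} [Fintype m] [Fintype n] [Fintype β] [Fintype σ]
      (B : Matrix m n (MvPolynomial β K)) (A : σ → Matrix m n (MvPolynomial β K)) (c d r : ℕ),
      (∀ i j, (B i j).totalDegree ≤ d + 1) → (∀ k i j, (A k i j).totalDegree ≤ d) →
      (∀ s : β → ℕ, NearRankOneSpan (fun k => valueAt (A k) s) c) →
      (symbolicRank (mixedMatrix B A) ≤ r ↔
        ∀ s : β → ℕ, ∑ l, s l ≤ (r + 1) * (d + 1) → ∃ U₁ U₂ : Submodule K (n → K),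
          SmallPair (valueAt B s) (fun k => valueAt (A k) s) c U₁ U₂ ∧
          ∀ lam : σ → ℕ, ∑ k, lam k ≤ 16 * c → Fintype.card n +
            pointDim (valueAt B s) (fun k => valueAt (A k) s) U₁ U₂ lam ≤
              r + finrank K U₂)) ∧
    (∀ {m n β σ : Type} [Fintype m] [Fintype n] [Fintype β] [Fintype σ]
      (A : σ → Matrix m n (MvPolynomial β K)) (c : ℕ), ∑ k, (symbolicRank (A k) - 1) ≤ c →
      ∀ s : β → ℕ, NearRankOneSpan (fun k => valueAt (A k) s) c) := by
  refine ⟨fun B A c h => ⟨upper B A, lower B A c h⟩, ?_, ?_⟩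
  · intro m n β σ _ _ _ _ B A c d r hB hA hN
    classical
    constructor
    · intro hr s _
      obtain ⟨U₁, U₂, h1, h2⟩ := lower (valueAt B s) (fun k => valueAt (A k) s) c (hN s)
      refine ⟨U₁, U₂, h1, fun lam _ => ?_⟩
      have h3 := (points (valueAt B s) (fun k => valueAt (A k) s) U₁ U₂ h1.1).1 lam
      have h4 : symbolicRank (affineMatrix (valueAt B s) fun k => valueAt (A k) s) ≤
          symbolicRank (mixedMatrix B A) := by
        rw [symbolicRank_eq]
        exact W981.Aff.rank_spec_le B A _
      omega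
    · intro h
      by_contra hr
      obtain ⟨s, hs1, hs2⟩ := W981.Aff.exists_spec (r := r + 1) B A hB hA (not_le.1 hr)
      obtain ⟨U₁, U₂, h1, h2⟩ := h s hs1
      obtain ⟨lam, h3, h4⟩ :=
        (points (valueAt B s) (fun k => valueAt (A k) s) U₁ U₂ h1.1).2
      have h5 := h2 lam (by have := h1.2.1; omega)
      have h6 := upper (valueAt B s) (fun k => valueAt (A k) s) U₁ U₂
      rw [symbolicRank_eq] at h6
      have h7 : r + 1 ≤ (W981.Aff.gaf (valueAt B s) fun k => valueAt (A k) s).rank := hs2
      omega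
  · intro m n β σ _ _ _ _ A c h s
    refine W981.Blk.near_of_ranks _ c (le_trans (Finset.sum_le_sum fun k _ => ?_) h)
    exact Nat.sub_le_sub_right (W981.Aff.eval_rank_le (A k) _) 1

end Pool.Agent.Results.MP_966f71_lc.AffineBlocks
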