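import Mathlib
import Pool.Agent.W936.VN.Mat5
import Pool.Agent.W936.VN.Rk3

/-!
# Certificates for the rank of symmetric polynomial matrices built by rank-one operations

We show that RANK restricted to the following polynomial matrices belongs to co-NP (and to NP, and
in fact to P): matrices whose graph (the graph of the nonzero entries `M i j`, `i ≠ j`) is a forest
and which have a symmetric pattern of zeros (for instance symmetric, skew-symmetric and Tutte
matrices of forests), with arbitrary sparse polynomials as entries, where every variable occurs in a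
bounded number of entries. More generally, we treat all square matrices with a balanced description
by direct sums, rank-one updates, scaling of the vectors and bordering (`Build`).

The certificate for `rank ≤ r` is a set `S` of at most `r` indices, together with an integer point
`σ` of polynomial length and the run of a deterministic search (`Run`) which ends there: at `σ` the
principal submatrix on `S` is nonsingular and those on the sets `S ∪ {i, j}` are singular. The set
`S` can also be found by a greedy algorithm, which needs one search for each of its steps.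

The proof: the principal submatrices have descriptions of the same kind, hence the search finds a
point at which all nonsingular ones among them are nonsingular
(`MP_08e617_lc.ForestMatrices`), and a matrix with a balanced description becomes symmetric if its
rows are multiplied by suitable nonzero rational functions.
-/

set_option autoImplicit false

namespace Pool.Agent.Results.MP_966f71_lc.BalancedForests

open MvPolynomial

open Pool.Agent.Results.MP_e2be99_lc.FormulasOverSparse (Run points points_card exists_run)

open Pool.Agent.W936.VN Pool.Agent.W936.RO Pool.Agent.W936.WB Pool.Agent.W936.XN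

/-- the rank of `M` as a matrix over the field of rational functions -/
noncomputable def genRank {n : ℕ} {ι : Type} [Fintype ι]
    (M : Matrix ι ι (MvPolynomial (Fin n) ℂ)) : ℕ :=
  (M.map (algebraMap (MvPolynomial (Fin n) ℂ) (FractionRing (MvPolynomial (Fin n) ℂ)))).rank

/-- the matrix `M` at the point `p` -/
noncomputable def at' {n : ℕ} {ι : Type} (M : Matrix ι ι (MvPolynomial (Fin n) ℂ))
    (p : Fin n → ℤ) : Matrix ι ι ℂ := M.map (MvPolynomial.eval fun i => (p i : ℂ))

/-- `S` is nonsingular in `M`, but no larger set `S ∪ {i, j}` is -/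
def Maximal {ι R : Type} [Fintype ι] [DecidableEq ι] [CommRing R] (M : Matrix ι ι R)
    (S : Finset ι) : Prop :=
  pmin M S ≠ 0 ∧ ∀ i j, (i ∉ S ∨ j ∉ S) → pmin M (insert i (insert j S)) = 0

theorem occ_sum {n N : ℕ} (M : Matrix (Fin (N + 1)) (Fin (N + 1)) (MvPolynomial (Fin n) ℂ))
    (x : Fin n) : ∑ i, ∑ j, occ1 (M i j) x =
      (Finset.univ.filter fun p : Fin (N + 1) × Fin (N + 1) => x ∈ (M p.1 p.2).vars).card := by
  classical
  rw [Finset.card_filter, Fintype.sum_prod_type]
  exact Finset.sum_congr rfl fun i _ => Finset.sum_congr rfl fun j _ => rfl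

theorem pmin_empty {ι R : Type} [Fintype ι] [DecidableEq ι] [CommRing R] (M : Matrix ι ι R) :
    pmin M ∅ = 1 := by
  rw [pmin, Matrix.det_isEmpty]

theorem maximal_rank {n : ℕ} {T : Build n} (hT : T.Balanced) {S : Finset T.Idx}
    (hS : Maximal T.mat S) : genRank T.mat = S.card := by
  have hinj := IsFractionRing.injective (MvPolynomial (Fin n) ℂ)
    (FractionRing (MvPolynomial (Fin n) ℂ))
  obtain ⟨D, c, _, hD, h1, _⟩ := balanced_sym hT _ hinj
  refine rank_symmable (T.mat.map (algebraMap (MvPolynomial (Fin n) ℂ)
    (FractionRing (MvPolynomial (Fin n) ℂ)))) D hD h1 S ?_ fun i j hij => ?_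
  · rw [pmin_map]
    exact fun h => hS.1 (hinj (by rw [h, map_zero]))
  · rw [pmin_map, hS.2 i j hij, map_zero]

theorem exists_maximal {n : ℕ} {T : Build n} (hT : T.Balanced) :
    ∃ S : Finset T.Idx, Maximal T.mat S ∧ genRank T.mat = S.card := by
  have hinj := IsFractionRing.injective (MvPolynomial (Fin n) ℂ)
    (FractionRing (MvPolynomial (Fin n) ℂ))
  obtain ⟨D, c, _, hD, h1, _⟩ := balanced_sym hT _ hinj
  obtain ⟨S, h2, h3, h4⟩ := exists_principal (T.mat.map (algebraMap (MvPolynomial (Fin n) ℂ)
    (FractionRing (MvPolynomial (Fin n) ℂ)))) D hD h1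
  refine ⟨S, ⟨fun h => h2 ?_, fun i j hij => hinj ?_⟩, h4⟩
  · rw [pmin_map, h, map_zero]
  · rw [map_zero, ← pmin_map]
    exact h3 i j hij

/-- Let `w, D` be fixed. There are `k, m` such that the following holds for every balanced
description `T` of a matrix `M` in `n` variables by polynomials of depth at most `D` (for `D = 0`,
polynomials with at most `s` monomials), where every variable occurs in at most `w` of the
polynomials, and for every `d` that is at least `n + 12 size order² degree`. Let `N = (s + 4)^k`.
The search `Run` over the explicit sets `points n m N d` and the tests `T.checks S` exists for every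
set `S` of indices, there are at most `12 size order²` tests, and the points have polynomial length.
* Certificates: the rank of `M` is at most `r` if and only if there is a set `S` of at most `r`
  indices and a run of the search for `S` that ends in a point `σ` such that `M(σ)` is nonsingular
  on `S` and singular on every larger set `S ∪ {i, j}`.
* Algorithm: if `M` is nonsingular on `S`, then either its rank is `|S|`, or every run of the search
  for `S` ends in a point `σ` such that `M(σ)`, and therefore `M`, is nonsingular on a larger set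
  `S ∪ {i, j}`.
Every matrix whose graph is a forest, with `M i j = 0 ↔ M j i = 0`, has a balanced description by
its entries, in which every entry is used at most once. -/
theorem result :
    (∀ w D : ℕ, ∃ k m : ℕ, ∀ (n d s : ℕ) (T : Build n), T.Balanced →
      T.Entries (Prg w s D) → (∀ x, T.reads x ≤ w) →
      n + Fintype.card T.Idx ^ 2 * (12 * T.size) * T.degree ≤ d →
      (∀ σ, (points n m ((s + 4) ^ k) d σ).card ≤
        ((s + 4) ^ k * d + 1) * ((d + 1) * (n * d + 1)) ^ m) ∧
      (∀ S : Finset T.Idx, (T.checks S).length ≤ Fintype.card T.Idx ^ 2 * (12 * T.size) ∧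
        (∃ σ K, Run (points n m ((s + 4) ^ k) d) (T.checks S) σ K) ∧
        ∀ σ K, Run (points n m ((s + 4) ^ k) d) (T.checks S) σ K →
          ∀ i, |σ i| ≤ (((2 ^ (n * (s + 4) ^ k * d) + m * d * (n * d + n) ^ (n - 1)) ^
            (T.checks S).length : ℕ) : ℤ)) ∧
      (∀ r : ℕ, genRank T.mat ≤ r ↔ ∃ (S : Finset T.Idx) (σ : Fin n → ℤ)
        (K : List (MvPolynomial (Fin n) ℂ)), S.card ≤ r ∧
          Run (points n m ((s + 4) ^ k) d) (T.checks S) σ K ∧ Maximal (at' T.mat σ) S) ∧
      ∀ (S : Finset T.Idx) (σ : Fin n → ℤ) (K : List (MvPolynomial (Fin n) ℂ)),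
        pmin T.mat S ≠ 0 → Run (points n m ((s + 4) ^ k) d) (T.checks S) σ K →
          genRank T.mat = S.card ∨
            ∃ i j, (i ∉ S ∨ j ∉ S) ∧ pmin (at' T.mat σ) (insert i (insert j S)) ≠ 0) ∧
    (∀ (n N : ℕ) (M : Matrix (Fin (N + 1)) (Fin (N + 1)) (MvPolynomial (Fin n) ℂ)),
      (SimpleGraph.fromRel fun i j => M i j ≠ 0).IsAcyclic →
      (∀ i j, M i j = 0 ↔ M j i = 0) →
      ∃ (T : Build n) (e : Fin (N + 1) ≃ T.Idx), (∀ i j, M i j = T.mat (e i) (e j)) ∧
        T.Entries (fun g => ∃ i j, g = M i j) ∧ T.Balanced ∧
        (∀ x, T.reads x ≤ (Finset.univ.filter fun p : Fin (N + 1) × Fin (N + 1) =>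
          x ∈ (M p.1 p.2).vars).card) ∧
        T.size ≤ 3 * (N + 1) ∧ T.degree ≤ ∑ i, ∑ j, (M i j).totalDegree) := by
  refine ⟨?_, fun n N M hM hB => ?_⟩
  swap
  · obtain ⟨T, e, h1, h2, h3, h4, h5, h6⟩ := forest_build' M hM
    exact ⟨T, e, h1, h2, h3 hB, fun x => (h4 x).trans (le_of_eq ((occ_sum M x).trans
      (by congr!))), h5, h6⟩
  intro w D
  obtain ⟨k, m, h₀⟩ := atom_hit w D
  refine ⟨k, m, fun n d s T hB hT hr hD => ?_⟩
  have hadm : ∀ S, AdmH ((s + 4) ^ k) m (T.checks S) := fun S =>
    checks_adm (w := w) (s := s) (D := D) (N := (s + 4) ^ k) (M := m)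
      (fun σ hσ g hg => Atoms.hit hg ((rVan _).prime _ _) fun g hg hc =>
        h₀ n (s + 1) _ le_rfl σ hσ g hg hc) hT hr S
  have hsum : ∀ S, n + ((T.checks S).map totalDegree).sum ≤ d := fun S =>
    (Nat.add_le_add_left (checks_degree T S) n).trans hD
  -- nonsingular sets are nonsingular at the point
  have hkeep : ∀ (S : Finset T.Idx) (σ : Fin n → ℤ) (K : List (MvPolynomial (Fin n) ℂ)),
      Run (points n m ((s + 4) ^ k) d) (T.checks S) σ K → ∀ i j,
      pmin T.mat (insert i (insert j S)) ≠ 0 → pmin (at' T.mat σ) (insert i (insert j S)) ≠ 0 := by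
    intro S σ K hrun i j h0
    rw [at', pmin_map]
    exact hrun.keep.1 _ (run_keep (hadm S) (hsum S) hrun _ (checks_mem T S i j) h0)
  have hkeep' : ∀ (S : Finset T.Idx) (σ : Fin n → ℤ) (K : List (MvPolynomial (Fin n) ℂ)),
      Run (points n m ((s + 4) ^ k) d) (T.checks S) σ K →
      pmin T.mat S ≠ 0 → pmin (at' T.mat σ) S ≠ 0 := by
    intro S σ K hrun h0
    rcases S.eq_empty_or_nonempty with rfl | ⟨i, hi⟩
    · rw [pmin_empty]
      exact one_ne_zero
    · have h1 := hkeep S σ K hrun i i
      rw [Finset.insert_idem, Finset.insert_eq_of_mem hi] at h1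
      exact h1 h0
  have hback : ∀ (S : Finset T.Idx) (σ : Fin n → ℤ), pmin (at' T.mat σ) S ≠ 0 →
      pmin T.mat S ≠ 0 := by
    intro S σ h0 h1
    apply h0
    rw [at', pmin_map, h1, map_zero]
  refine ⟨fun σ => points_card _ _ d σ, fun S => ⟨checks_length T S, exists_run _ _,
    fun σ K hrun i => hrun.bound i⟩, ?_, ?_⟩
  · intro r
    constructor
    · intro hle
      obtain ⟨S, hS, hrank⟩ := exists_maximal hB
      obtain ⟨σ, K, hrun⟩ := exists_run (points n m ((s + 4) ^ k) d) (T.checks S)
      refine ⟨S, σ, K, by rwa [← hrank], hrun, hkeep' S σ K hrun hS.1, fun i j hij => ?_⟩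
      rw [at', pmin_map, hS.2 i j hij, map_zero]
    · rintro ⟨S, σ, K, hle, hrun, hS⟩
      have h1 : Maximal T.mat S := ⟨hback S σ hS.1, fun i j hij => by
        by_contra hc
        exact hkeep S σ K hrun i j hc (hS.2 i j hij)⟩
      rw [maximal_rank hB h1]
      exact hle
  · intro S σ K h0 hrun
    by_cases h1 : ∀ i j, (i ∉ S ∨ j ∉ S) → pmin (at' T.mat σ) (insert i (insert j S)) = 0
    · left
      have h2 : Maximal T.mat S := ⟨h0, fun i j hij => by
        by_contra hc
        exact hkeep S σ K hrun i j hc (h1 i j hij)⟩
      exact maximal_rank hB h2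
    · right
      push Not at h1
      exact h1

end Pool.Agent.Results.MP_966f71_lc.BalancedForests
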