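import Mathlib
import Pool.Agent.W981.Den.Local3

/-!
# The rank of a symbolic matrix with a large space of coefficient matrices

Let `K` be a field of characteristic zero and let

  `L = B + ∑ t_k A_k`

be an `m × n` matrix of affine linear forms in the variables `t_k`, `k ∈ σ`.  Put `N = max (m, n)`.
We call the family `A_k` `κ`-dense if the codimension of the span of the `A_k` in the space of all
`m × n` matrices is less than `(κ + 1)(N - κ(κ + 1))`.  For instance this holds if the codimension
is at most `κN` and `N > κ(κ + 1)²`.  There is no condition on `B`.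

For `κ`-dense families we prove the following.

(1) *A local maximum of the rank is a global maximum.*  Write `L(h)` for the matrix at a point
`h ∈ K^σ`.  If `rank L(h) < rank L` then there is an integer vector `λ ≥ 0` with at most `2κ + 5`
nonzero coordinates and `∑ λ_k ≤ min (m, n)` such that `rank L(h) < rank L(h + λ)`.  For fixed `κ`
there are polynomially many such vectors `λ`, hence the rank of `L` over `K(t)` and a point where
it is attained are found in at most `min (m, n)` rounds, by a polynomial number of rank
computations over `K`, with integer points of small size: the problem RANK for these matrices over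
the rational numbers is in P.

(2) *A formula for the rank.*  For all subspaces `U` of `K^n` one has
`rank L ≤ n - dim U + dim L(U ⊗ K(t))`, and similarly for the transposed matrices.  For a
`κ`-dense family equality holds for some `U` of dimension at most `κ`, for `L` or for its
transpose.  So `L` is the sum of a matrix with few columns (or rows) and a compression space.

(3) Let `B(s)` and `A_k(s)` depend polynomially on further variables `s`, in an arbitrary way, such
that the family `A_k(s)` is `κ`-dense for the integer points `s ≥ 0` of small weight.  Then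
`rank (B(s) + ∑ t_k A_k(s)) ≤ r` if and only if for all these integer points `s` there is a
subspace as in (2); the condition on the subspace can be checked at the integer points `x ≥ 0`
with `∑ x_k ≤ κ`.

The proof.  Let `r` be the rank at `h` and assume that the rank is at most `r` at all points which
differ from `h` in at most `2κ + 5` coordinates.  For a point `x` near `h` with `rank L(x) = r` let
`e(x)` be the codimension of the span of the vectors `A_k z`, `z ∈ ker L(x)`, and let `d_c` be the
dimension of the span `X_c` of the kernels at such points `x` which differ from `h` in at most `c`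
coordinates.  The derivatives of the equation `L z = 0` show `m + (n - r) ≤ e(x) + d_{c + 1}`.  The
orthogonal complement of the span of the `A_k` contains the matrices `z wᵀ` (transposed) for `z` in
the kernel of `L(x)` and `w` orthogonal to all `A_k z`, hence `e(x) d_c` is at most the codimension
of the span of the `A_k`, for some point `x`.  This implies `d_κ ≤ κ` or `e(x) ≤ κ` for some point
`x` which differs from `h` in at most `κ + 3` coordinates.  In the first case `U = X_κ` gives the
formula.  In the second case a second order argument at the points near `x` shows that the span of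
the left kernels at these points has dimension at most `κ`.
-/

set_option autoImplicit false

open MvPolynomial Matrix Module

namespace Pool.Agent.Results.MP_966f71_lc.DenseFamilies

/-- The rank of a matrix of polynomials over the field of rational functions. -/
noncomputable def symbolicRank {K m n τ : Type*} [Field K] [Fintype n]
    (M : Matrix m n (MvPolynomial τ K)) : ℕ :=
  (M.map (algebraMap (MvPolynomial τ K) (FractionRing (MvPolynomial τ K)))).rank

/-- The matrix `B + ∑ k, t_k A_k` with entries in `K[t_k : k ∈ σ]`. -/
noncomputable def affineMatrix {K m n σ : Type*} [Field K] [Fintype σ]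
    (B : Matrix m n K) (A : σ → Matrix m n K) : Matrix m n (MvPolynomial σ K) :=
  B.map C + ∑ k, (X k : MvPolynomial σ K) • (A k).map C

/-- The matrix `B + ∑ k, h_k A_k` over `K`, for a point `h ∈ K^σ`. -/
def pointMatrix {K m n σ : Type*} [Field K] [Fintype σ]
    (B : Matrix m n K) (A : σ → Matrix m n K) (h : σ → K) : Matrix m n K :=
  B + ∑ k, h k • A k

/-- The matrix `B(s) + ∑ k, t_k A_k(s)` with entries in `K[s_l, t_k : l ∈ β, k ∈ σ]`. -/
noncomputable def mixedMatrix {K m n β σ : Type*} [Field K] [Fintype σ]
    (B : Matrix m n (MvPolynomial β K)) (A : σ → Matrix m n (MvPolynomial β K)) :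
    Matrix m n (MvPolynomial (β ⊕ σ) K) :=
  B.map (rename Sum.inl) + ∑ k, (X (Sum.inr k) : MvPolynomial (β ⊕ σ) K) •
    (A k).map (rename Sum.inl)

/-- The value at the integer point `s` of a matrix with polynomial entries. -/
noncomputable def valueAt {K m n β : Type*} [Field K] (M : Matrix m n (MvPolynomial β K))
    (s : β → ℕ) : Matrix m n K :=
  M.map (eval fun l => (s l : K))

/-- The extension of scalars `W ⊗ K(t)` of a subspace `W` of `K^n`, a subspace of `K(t)^n`. -/
noncomputable def extendSpace {K n : Type*} (σ : Type*) [Field K] (W : Submodule K (n → K)) :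
    Submodule (FractionRing (MvPolynomial σ K)) (n → FractionRing (MvPolynomial σ K)) :=
  Submodule.span (FractionRing (MvPolynomial σ K))
    ((fun (w : n → K) (i : n) => algebraMap K (FractionRing (MvPolynomial σ K)) (w i)) ''
      (W : Set (n → K)))

/-- The dimension over `K(t)` of the image `L (U ⊗ K(t))`, where `L = B + ∑ t_k A_k`. -/
noncomputable def symbolicDim {K m n σ : Type*} [Field K] [Fintype n] [Fintype σ]
    (B : Matrix m n K) (A : σ → Matrix m n K) (U : Submodule K (n → K)) : ℕ :=
  finrank (FractionRing (MvPolynomial σ K))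
    ((extendSpace σ U).map ((affineMatrix B A).map
      (algebraMap (MvPolynomial σ K) (FractionRing (MvPolynomial σ K)))).mulVecLin)

/-- The dimension over `K` of the image of `U` under `B + ∑ x_k A_k`, for an integer point `x`. -/
noncomputable def pointDim {K m n σ : Type*} [Field K] [Fintype n] [Fintype σ]
    (B : Matrix m n K) (A : σ → Matrix m n K) (U : Submodule K (n → K)) (x : σ → ℕ) : ℕ :=
  finrank K (U.map (pointMatrix B A fun k => (x k : K)).mulVecLin)

/-- The codimension of the span of the `A_k` in the space of all matrices is less than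
`(κ + 1)(N - κ(κ + 1))`, where `N` is the maximum of the numbers of rows and columns. -/
def DenseFamily {K m n σ : Type*} [Field K] [Fintype m] [Fintype n]
    (A : σ → Matrix m n K) (κ : ℕ) : Prop :=
  Fintype.card m * Fintype.card n + (κ + 1) * (κ * (κ + 1)) <
    finrank K (Submodule.span K (Set.range A)) +
      (κ + 1) * max (Fintype.card m) (Fintype.card n)

/-- A certificate for `rank (B + ∑ t_k A_k) ≤ r`: a subspace `U` of `K^n` of dimension at most `κ`
with `n + dim (B + ∑ x_k A_k) U ≤ r + dim U` for all integer vectors `x ≥ 0` with `∑ x_k ≤ κ`, or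
the same for the transposed matrices. -/
def Certificate {K m n σ : Type*} [Field K] [Fintype m] [Fintype n] [Fintype σ]
    (B : Matrix m n K) (A : σ → Matrix m n K) (κ r : ℕ) : Prop :=
  (∃ U : Submodule K (n → K), finrank K U ≤ κ ∧ ∀ x : σ → ℕ, ∑ k, x k ≤ κ →
    Fintype.card n + pointDim B A U x ≤ r + finrank K U) ∨
  (∃ U : Submodule K (m → K), finrank K U ≤ κ ∧ ∀ x : σ → ℕ, ∑ k, x k ≤ κ →
    Fintype.card m + pointDim Bᵀ (fun k => (A k)ᵀ) U x ≤ r + finrank K U)

theorem symbolicRank_eq {K m n σ : Type*} [Field K] [Fintype m] [Fintype n] [Fintype σ]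
    (B : Matrix m n K) (A : σ → Matrix m n K) :
    symbolicRank (affineMatrix B A) = (W981.Aff.gaf B A).rank := by
  classical
  exact (W981.Aff.rank_gaf B A).symm

theorem symbolicDim_eq {K m n σ : Type*} [Field K] [Fintype m] [Fintype n] [Fintype σ]
    (B : Matrix m n K) (A : σ → Matrix m n K) (U : Submodule K (n → K)) :
    symbolicDim B A U = W981.Den.sdim B A U := by
  classical
  rw [W981.Den.sdim, W981.Aff.gaf_eq_afs]
  rfl

theorem rank_transpose_eq {K m n σ : Type*} [Field K] [CharZero K] [Fintype m] [Fintype n]
    [Fintype σ] (B : Matrix m n K) (A : σ → Matrix m n K) :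
    (W981.Aff.gaf Bᵀ fun k => (A k)ᵀ).rank = (W981.Aff.gaf B A).rank := by
  classical
  rw [← W981.Den.gaf_transpose, Matrix.rank_transpose]

/-- A certificate bounds the rank. -/
theorem rank_le_of_certificate {K m n σ : Type*} [Field K] [CharZero K] [Fintype m] [Fintype n]
    [Fintype σ] (B : Matrix m n K) (A : σ → Matrix m n K) {κ r : ℕ} (h : Certificate B A κ r) :
    (W981.Aff.gaf B A).rank ≤ r := by
  classical
  rcases h with ⟨U, hU, h⟩ | ⟨U, hU, h⟩
  · obtain ⟨lam, h1, h2⟩ := W981.Den.sdim_point B A U
    have h3 := h lam (h1.trans hU)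
    have h4 : pointDim B A U lam = W981.Den.sdim B A U := h2
    have h5 := W981.Den.sdim_upper B A U
    omega
  · obtain ⟨lam, h1, h2⟩ := W981.Den.sdim_point Bᵀ (fun k => (A k)ᵀ) U
    have h3 := h lam (h1.trans hU)
    have h4 : pointDim Bᵀ (fun k => (A k)ᵀ) U lam = W981.Den.sdim Bᵀ (fun k => (A k)ᵀ) U := h2
    have h5 := W981.Den.sdim_upper Bᵀ (fun k => (A k)ᵀ) U
    rw [rank_transpose_eq] at h5
    omega

/-- The certificates exist for dense families. -/
theorem exists_certificate {K m n σ : Type*} [Field K] [CharZero K] [Fintype m] [Fintype n]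
    [Fintype σ] (B : Matrix m n K) (A : σ → Matrix m n K) {κ r : ℕ} (hκ : 1 ≤ κ)
    (hA : DenseFamily A κ) (hr : (W981.Aff.gaf B A).rank ≤ r) : Certificate B A κ r := by
  classical
  rcases W981.Den.dense_exists B A hκ hA with ⟨U, hU, h⟩ | ⟨U, hU, h⟩
  · refine Or.inl ⟨U, hU, fun x _ => ?_⟩
    have h1 : pointDim B A U x ≤ W981.Den.sdim B A U := W981.Den.sdim_le B A U _
    omega
  · refine Or.inr ⟨U, hU, fun x _ => ?_⟩
    have h1 : pointDim Bᵀ (fun k => (A k)ᵀ) U x ≤ W981.Den.sdim Bᵀ (fun k => (A k)ᵀ) U :=
      W981.Den.sdim_le Bᵀ _ U _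
    omega

/-- **Result.**  Let `K` be a field of characteristic zero and `κ ≥ 1`.  Let `B` and `A_k` be
`m × n` matrices over `K` such that the family `A_k` is `κ`-dense, and `L = B + ∑ t_k A_k`.
(1) If the rank of `L(h) = B + ∑ h_k A_k` at a point `h` is smaller than the rank of `L`, then there
is an integer vector `λ ≥ 0` with at most `2κ + 5` nonzero coordinates and `∑ λ_k ≤ min (m, n)` such
that `rank L(h) < rank L(h + λ)`.
(2) For all subspaces `U` of `K^n` one has `rank L ≤ n - dim U + dim L(U ⊗ K(t))`, and for all
subspaces `U` of `K^m` one has `rank L ≤ m - dim U + dim Lᵀ(U ⊗ K(t))`.  Equality holds in one of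
these for some `U` with `dim U ≤ κ`.
(3) Let `B` and `A_k` be matrices over `K[s]` whose entries have degree at most `d + 1` and `d`, such
that the family `A_k(s)` is `κ`-dense for all integer vectors `s ≥ 0` with
`∑ s_l ≤ (r + 1)(d + 1)`.  Then `rank (B(s) + ∑ t_k A_k(s)) ≤ r` over `K(s, t)` if and only if for
all these `s` there is a certificate for the family `B(s)`, `A_k(s)`. -/
theorem result.{u, v} {K : Type u} [Field K] [CharZero K] (κ : ℕ) (hκ : 1 ≤ κ) :
    (∀ {m n σ : Type v} [Fintype m] [Fintype n] [Fintype σ] (B : Matrix m n K)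
      (A : σ → Matrix m n K), DenseFamily A κ → ∀ h : σ → K,
      (pointMatrix B A h).rank < symbolicRank (affineMatrix B A) →
      ∃ lam : σ → ℕ, Nat.card {k // lam k ≠ 0} ≤ 2 * κ + 5 ∧
        ∑ k, lam k ≤ min (Fintype.card m) (Fintype.card n) ∧
        (pointMatrix B A h).rank < (pointMatrix B A fun k => h k + (lam k : K)).rank) ∧
    (∀ {m n σ : Type v} [Fintype m] [Fintype n] [Fintype σ] (B : Matrix m n K)
      (A : σ → Matrix m n K), DenseFamily A κ →
      (∀ U : Submodule K (n → K), symbolicRank (affineMatrix B A) + finrank K U ≤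
        Fintype.card n + symbolicDim B A U) ∧
      (∀ U : Submodule K (m → K), symbolicRank (affineMatrix B A) + finrank K U ≤
        Fintype.card m + symbolicDim Bᵀ (fun k => (A k)ᵀ) U) ∧
      ((∃ U : Submodule K (n → K), finrank K U ≤ κ ∧
        symbolicRank (affineMatrix B A) + finrank K U =
          Fintype.card n + symbolicDim B A U) ∨
      (∃ U : Submodule K (m → K), finrank K U ≤ κ ∧
        symbolicRank (affineMatrix B A) + finrank K U =
          Fintype.card m + symbolicDim Bᵀ (fun k => (A k)ᵀ) U))) ∧
    (∀ {m n β σ : Type v} [Fintype m] [Fintype n] [Fintype β] [Fintype σ]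
      (B : Matrix m n (MvPolynomial β K)) (A : σ → Matrix m n (MvPolynomial β K)) (d r : ℕ),
      (∀ i j, (B i j).totalDegree ≤ d + 1) → (∀ k i j, (A k i j).totalDegree ≤ d) →
      (∀ s : β → ℕ, ∑ l, s l ≤ (r + 1) * (d + 1) →
        DenseFamily (fun k => valueAt (A k) s) κ) →
      (symbolicRank (mixedMatrix B A) ≤ r ↔
        ∀ s : β → ℕ, ∑ l, s l ≤ (r + 1) * (d + 1) →
          Certificate (valueAt B s) (fun k => valueAt (A k) s) κ r)) := by
  refine ⟨?_, ?_, ?_⟩
  · intro m n σ _ _ _ B A hA h hh
    classical
    rw [symbolicRank_eq] at hh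
    obtain ⟨lam, h1, h2, h3⟩ := W981.Den.dense_search B A hκ hA h hh
    refine ⟨lam, ?_, h2, h3⟩
    rw [Nat.card_eq_fintype_card, Fintype.card_subtype]
    exact h1
  · intro m n σ _ _ _ B A hA
    classical
    simp only [symbolicRank_eq, symbolicDim_eq]
    refine ⟨W981.Den.sdim_upper B A, fun U => ?_, W981.Den.dense_exists B A hκ hA⟩
    have h1 := W981.Den.sdim_upper Bᵀ (fun k => (A k)ᵀ) U
    rw [rank_transpose_eq] at h1
    exact h1
  · intro m n β σ _ _ _ _ B A d r hB hA hN
    classical
    constructor
    · intro hr s hs
      refine exists_certificate _ _ hκ (hN s hs) (le_trans ?_ hr)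
      exact W981.Aff.rank_spec_le B A _
    · intro h
      by_contra hr
      obtain ⟨s, hs1, hs2⟩ := W981.Aff.exists_spec (r := r + 1) B A hB hA (not_le.1 hr)
      have h1 : (W981.Aff.gaf (valueAt B s) fun k => valueAt (A k) s).rank ≤ r :=
        rank_le_of_certificate _ _ (h s hs1)
      have h7 : r + 1 ≤ (W981.Aff.gaf (valueAt B s) fun k => valueAt (A k) s).rank := hs2
      omega

end Pool.Agent.Results.MP_966f71_lc.DenseFamilies
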