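import Mathlib
import Pool.Agent.W981.Sym.Near

/-!
# Certificates for the rank of symmetric matrices with an arbitrary part and an almost rank two part

Let `K` be a field of characteristic zero.  We consider symmetric matrices

  `L = B(s) + ∑ t_k A_k(s)`

with polynomial entries in two groups of variables, `s = (s_l : l ∈ β)` and `t = (t_k : k ∈ σ)`.
The dependence on the variables `s` is arbitrary.  The matrix is affine linear in the variables `t`,
and most of the `A_k` have the form `u vᵀ + v uᵀ`.  The symmetric matrix `B` is arbitrary.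

First let `β` be empty, so that `B` and the `A_k` are matrices over `K`.  Put
`ℬ U = B U + ∑ A_k U` for a subspace `U` of `K^n`, and let `F = K(t)`.  For all `U₁, U₂` one has

  `rank L ≤ n - dim U₂ + dim (L (U₂ ⊗ F) + ℬ U₁ ⊗ F)`.

We prove that equality holds for some pair `U₁ ≤ U₂` with `dim U₂/U₁ ≤ 180c` and
`dim ℬ U₂/ℬ U₁ ≤ 177c`, if the span of the `A_k` has codimension at most `c` in a space which is
spanned by matrices `u vᵀ + v uᵀ`.  The right hand side for such a pair can be found from the
ranks of `A(λ) = B + ∑ λ_k A_k` on `U₂` modulo `ℬ U₁` for the integer points `λ ≥ 0` with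
`∑ λ_k ≤ 180c`.  In the general case we take one pair for each integer point `s ≥ 0` of small
weight.

The proof: let `Z` be the kernel of `L` over `F`, let `X = U₂` be the smallest subspace over `K`
with `Z ≤ X ⊗ F`, and write `A_k = ∑ a_k(i) (p_i q_iᵀ + q_i p_iᵀ)`.  For generic `z ∈ Z` the
derivatives of the equations `L z = 0` and `z · L x = 0` give a cubic form on the space of
parameters which is a sum of cubes of coordinates, up to a small error, and vanishes.  A lemma of
linear algebra then shows that the derivatives of `p_i · z` and `q_i · z` vanish on a space of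
parameters of small codimension, for all `i` for which `p_i` and `q_i` do not vanish on `X`.  The
other indices behave as for matrices of rank one.  With `H₀ = B U₁ + (the span of some q_i)`, where
`U₁` is defined by the vanishing of the functionals `p_i` and `q_i` (for `i` outside of a set of
good indices), one finds that `(q_i · z) p_i + (p_i · z) q_i`, `i ∈ ι`, span a space of small
dimension modulo `H₀`, for every generic `z`.  As `F` is infinite a small set of indices `i` works
for all `z` at the same time, and then also for all vectors of `X`.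
-/

set_option autoImplicit false

open MvPolynomial Matrix Module

namespace Pool.Agent.Results.MP_966f71_lc.SymmetricBlocks

/-- The rank of a matrix of polynomials over the field of rational functions. -/
noncomputable def symbolicRank {K n τ : Type*} [Field K] [Fintype n]
    (M : Matrix n n (MvPolynomial τ K)) : ℕ :=
  (M.map (algebraMap (MvPolynomial τ K) (FractionRing (MvPolynomial τ K)))).rank

/-- The matrix `B + ∑ k, t_k A_k` with entries in `K[t_k : k ∈ σ]`. -/
noncomputable def affineMatrix {K n σ : Type*} [Field K] [Fintype σ]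
    (B : Matrix n n K) (A : σ → Matrix n n K) : Matrix n n (MvPolynomial σ K) :=
  B.map C + ∑ k, (X k : MvPolynomial σ K) • (A k).map C

/-- The matrix `B(s) + ∑ k, t_k A_k(s)` with entries in `K[s_l, t_k : l ∈ β, k ∈ σ]`. -/
noncomputable def mixedMatrix {K n β σ : Type*} [Field K] [Fintype σ]
    (B : Matrix n n (MvPolynomial β K)) (A : σ → Matrix n n (MvPolynomial β K)) :
    Matrix n n (MvPolynomial (β ⊕ σ) K) :=
  B.map (rename Sum.inl) + ∑ k, (X (Sum.inr k) : MvPolynomial (β ⊕ σ) K) •
    (A k).map (rename Sum.inl)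

/-- The value at the integer point `s` of a matrix with polynomial entries. -/
noncomputable def valueAt {K n β : Type*} [Field K] (M : Matrix n n (MvPolynomial β K))
    (s : β → ℕ) : Matrix n n K :=
  M.map (eval fun l => (s l : K))

/-- The subspace `ℬ U = B U + ∑ k, A_k U` of `K^n`. -/
noncomputable def imageSpace {K n σ : Type*} [Field K] [Fintype n]
    (B : Matrix n n K) (A : σ → Matrix n n K) (U : Submodule K (n → K)) : Submodule K (n → K) :=
  U.map B.mulVecLin ⊔ ⨆ k, U.map (A k).mulVecLin

/-- The extension of scalars `W ⊗ K(t)` of a subspace `W` of `K^n`, a subspace of `K(t)^n`. -/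
noncomputable def extendSpace {K n : Type*} (σ : Type*) [Field K] (W : Submodule K (n → K)) :
    Submodule (FractionRing (MvPolynomial σ K)) (n → FractionRing (MvPolynomial σ K)) :=
  Submodule.span (FractionRing (MvPolynomial σ K))
    ((fun (w : n → K) (i : n) => algebraMap K (FractionRing (MvPolynomial σ K)) (w i)) ''
      (W : Set (n → K)))

/-- The dimension over `K(t)` of `L (U₂ ⊗ K(t)) + (ℬ U₁) ⊗ K(t)`, where `L = B + ∑ t_k A_k`. -/
noncomputable def symbolicDim {K n σ : Type*} [Field K] [Fintype n] [Fintype σ]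
    (B : Matrix n n K) (A : σ → Matrix n n K) (U₁ U₂ : Submodule K (n → K)) : ℕ :=
  finrank (FractionRing (MvPolynomial σ K))
    ((extendSpace σ U₂).map ((affineMatrix B A).map
      (algebraMap (MvPolynomial σ K) (FractionRing (MvPolynomial σ K)))).mulVecLin ⊔
        extendSpace σ (imageSpace B A U₁) :
      Submodule (FractionRing (MvPolynomial σ K)) (n → FractionRing (MvPolynomial σ K)))

/-- The dimension over `K` of `A(λ) U₂ + ℬ U₁`, where `A(λ) = B + ∑ λ_k A_k`. -/
noncomputable def pointDim {K n σ : Type*} [Field K] [Fintype n] [Fintype σ]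
    (B : Matrix n n K) (A : σ → Matrix n n K) (U₁ U₂ : Submodule K (n → K)) (lam : σ → ℕ) : ℕ :=
  finrank K (U₂.map (B + ∑ k, (lam k : K) • A k).mulVecLin ⊔ imageSpace B A U₁ :
    Submodule K (n → K))

/-- The span of the `A_k` is contained, with codimension at most `c`, in a space which is spanned by
matrices of the form `u vᵀ + v uᵀ`. -/
def NearProductSpan {K n σ : Type*} [Field K] (A : σ → Matrix n n K) (c : ℕ) : Prop :=
  ∃ R : Set (Matrix n n K), (∀ T ∈ R, ∃ u v : n → K, T = vecMulVec u v + vecMulVec v u) ∧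
    (∀ k, A k ∈ Submodule.span K R) ∧
    finrank K (Submodule.span K R) ≤ finrank K (Submodule.span K (Set.range A)) + c

/-- `U₁ ≤ U₂`, the space `U₂/U₁` has dimension at most `180c`, and the space `ℬ U₂/ℬ U₁` has
dimension at most `177c`. -/
def SmallPair {K n σ : Type*} [Field K] [Fintype n] (B : Matrix n n K)
    (A : σ → Matrix n n K) (c : ℕ) (U₁ U₂ : Submodule K (n → K)) : Prop :=
  U₁ ≤ U₂ ∧ finrank K U₂ ≤ finrank K U₁ + 180 * c ∧
    finrank K (imageSpace B A U₂) ≤ finrank K (imageSpace B A U₁) + 177 * c

theorem symbolicRank_eq {K n σ : Type*} [Field K] [Fintype n] [Fintype σ]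
    (B : Matrix n n K) (A : σ → Matrix n n K) :
    symbolicRank (affineMatrix B A) = (W981.Aff.gaf B A).rank := by
  classical
  exact (W981.Aff.rank_gaf B A).symm

theorem symbolicDim_eq {K n σ : Type*} [Field K] [Fintype n] [Fintype σ]
    (B : Matrix n n K) (A : σ → Matrix n n K) (U₁ U₂ : Submodule K (n → K)) :
    symbolicDim B A U₁ U₂ =
      finrank (W981.Hyp.FF σ K) ((W981.Hyp.ext (W981.Hyp.FF σ K) U₂).map
        (W981.Aff.gaf B A).mulVecLin ⊔ W981.Hyp.ext (W981.Hyp.FF σ K) (W981.Aff.imB B A U₁) :
        Submodule (W981.Hyp.FF σ K) (n → W981.Hyp.FF σ K)) := by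
  classical
  rw [W981.Aff.gaf_eq_afs]
  rfl

theorem upper {K n σ : Type*} [Field K] [Fintype n] [Fintype σ]
    (B : Matrix n n K) (A : σ → Matrix n n K) (U₁ U₂ : Submodule K (n → K)) :
    symbolicRank (affineMatrix B A) + finrank K U₂ ≤
      Fintype.card n + symbolicDim B A U₁ U₂ := by
  classical
  rw [symbolicDim_eq, symbolicRank_eq]
  exact W981.Aff.pair_upper B A U₁ U₂

theorem lower {K : Type*} {n σ : Type} [Field K] [CharZero K] [Fintype n] [Fintype σ]
    (B : Matrix n n K) (hB : Bᵀ = B) (A : σ → Matrix n n K) (c : ℕ)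
    (h : NearProductSpan A c) :
    ∃ U₁ U₂ : Submodule K (n → K), SmallPair B A c U₁ U₂ ∧
      symbolicRank (affineMatrix B A) + finrank K U₂ =
        Fintype.card n + symbolicDim B A U₁ U₂ := by
  classical
  obtain ⟨R, hR, hA, hc⟩ := h
  obtain ⟨U₁, U₂, h1, h2, h3, h4⟩ := W981.Sym.blocksS B hB A R hR hA c hc
  refine ⟨U₁, U₂, ⟨h1, h2, h3⟩, ?_⟩
  rw [symbolicDim_eq, symbolicRank_eq]
  exact h4

theorem points {K n σ : Type*} [Field K] [CharZero K] [Fintype n] [Fintype σ]
    (B : Matrix n n K) (A : σ → Matrix n n K) (U₁ U₂ : Submodule K (n → K)) (h : U₁ ≤ U₂) :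
    (∀ lam, pointDim B A U₁ U₂ lam ≤ symbolicDim B A U₁ U₂) ∧
    ∃ lam : σ → ℕ, finrank K U₁ + ∑ k, lam k ≤ finrank K U₂ ∧
      pointDim B A U₁ U₂ lam = symbolicDim B A U₁ U₂ := by
  classical
  rw [symbolicDim_eq]
  exact ⟨fun lam => W981.Aff.blk_le B A h _, W981.Aff.blk_point B A h⟩

/-- **Result.**  Let `K` be a field of characteristic zero.  (1) Let `B` be a symmetric matrix over
`K` and let `A_k` be matrices over `K` such that the span of the `A_k` has codimension at most `c`
in a space spanned by matrices `u vᵀ + v uᵀ`.  Then the rank of `B + ∑ t_k A_k` is the minimum of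
`n - dim U₂ + symbolicDim B A U₁ U₂`, and it is attained for a pair `U₁ ≤ U₂` with
`dim U₂/U₁ ≤ 180c` and `dim ℬ U₂/ℬ U₁ ≤ 177c`.  (2) Let `B` and `A_k` be matrices over `K[s]` whose
entries have degree at most `d + 1` and `d` such that `B` is symmetric and for every integer point
`s` the matrices `A_k(s)` have the property of (1).  Then `rank (B(s) + ∑ t_k A_k(s)) ≤ r` if and
only if for all integer vectors `s ≥ 0` with `∑ s_l ≤ (r + 1)(d + 1)` there is such a pair for the
matrices `B(s)` and `A_k(s)` with `n - dim U₂ + dim (A(λ) U₂ + ℬ U₁) ≤ r` for all integer vectors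
`λ ≥ 0` with `∑ λ_k ≤ 180c`.  (3) The hypothesis of (2) on the `A_k` holds if each `A_k` is a sum of
`e_k` matrices `u vᵀ + v uᵀ` over `K[s]` and `∑ (e_k - 1) ≤ c`. -/
theorem result {K : Type*} [Field K] [CharZero K] :
    (∀ {n σ : Type} [Fintype n] [Fintype σ] (B : Matrix n n K)
      (A : σ → Matrix n n K) (c : ℕ), Bᵀ = B → NearProductSpan A c →
      (∀ U₁ U₂ : Submodule K (n → K), symbolicRank (affineMatrix B A) + finrank K U₂ ≤
        Fintype.card n + symbolicDim B A U₁ U₂) ∧
      ∃ U₁ U₂ : Submodule K (n → K), SmallPair B A c U₁ U₂ ∧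
        symbolicRank (affineMatrix B A) + finrank K U₂ =
          Fintype.card n + symbolicDim B A U₁ U₂) ∧
    (∀ {n β σ : Type} [Fintype n] [Fintype β] [Fintype σ]
      (B : Matrix n n (MvPolynomial β K)) (A : σ → Matrix n n (MvPolynomial β K)) (c d r : ℕ),
      Bᵀ = B → (∀ i j, (B i j).totalDegree ≤ d + 1) → (∀ k i j, (A k i j).totalDegree ≤ d) →
      (∀ s : β → ℕ, NearProductSpan (fun k => valueAt (A k) s) c) →
      (symbolicRank (mixedMatrix B A) ≤ r ↔
        ∀ s : β → ℕ, ∑ l, s l ≤ (r + 1) * (d + 1) → ∃ U₁ U₂ : Submodule K (n → K),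
          SmallPair (valueAt B s) (fun k => valueAt (A k) s) c U₁ U₂ ∧
          ∀ lam : σ → ℕ, ∑ k, lam k ≤ 180 * c → Fintype.card n +
            pointDim (valueAt B s) (fun k => valueAt (A k) s) U₁ U₂ lam ≤
              r + finrank K U₂)) ∧
    (∀ {n β σ : Type} [Fintype n] [Fintype β] [Fintype σ]
      (A : σ → Matrix n n (MvPolynomial β K)) (c : ℕ) (e : σ → ℕ)
      (u v : (k : σ) → Fin (e k) → n → MvPolynomial β K),
      (∀ k, A k = ∑ i, (vecMulVec (u k i) (v k i) + vecMulVec (v k i) (u k i))) →
      ∑ k, (e k - 1) ≤ c → ∀ s : β → ℕ, NearProductSpan (fun k => valueAt (A k) s) c) := by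
  refine ⟨fun B A c hB h => ⟨upper B A, lower B hB A c h⟩, ?_, ?_⟩
  · intro n β σ _ _ _ B A c d r hsym hB hA hN
    classical
    have hsym' : ∀ s : β → ℕ, (valueAt B s)ᵀ = valueAt B s := by
      intro s
      rw [valueAt, ← transpose_map, hsym]
    constructor
    · intro hr s _
      obtain ⟨U₁, U₂, h1, h2⟩ := lower (valueAt B s) (hsym' s) (fun k => valueAt (A k) s) c (hN s)
      refine ⟨U₁, U₂, h1, fun lam _ => ?_⟩
      have h3 := (points (valueAt B s) (fun k => valueAt (A k) s) U₁ U₂ h1.1).1 lam
      have h4 : symbolicRank (affineMatrix (valueAt B s) fun k => valueAt (A k) s) ≤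
          symbolicRank (mixedMatrix B A) := by
        rw [symbolicRank_eq]
        exact W981.Aff.rank_spec_le B A _
      omega
    · intro h
      by_contra hr
      obtain ⟨s, hs1, hs2⟩ := W981.Aff.exists_spec (r := r + 1) B A hB hA (not_le.1 hr)
      obtain ⟨U₁, U₂, h1, h2⟩ := h s hs1
      obtain ⟨lam, h3, h4⟩ :=
        (points (valueAt B s) (fun k => valueAt (A k) s) U₁ U₂ h1.1).2
      have h5 := h2 lam (by have := h1.2.1; omega)
      have h6 := upper (valueAt B s) (fun k => valueAt (A k) s) U₁ U₂
      rw [symbolicRank_eq] at h6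
      have h7 : r + 1 ≤ (W981.Aff.gaf (valueAt B s) fun k => valueAt (A k) s).rank := hs2
      omega
  · intro n β σ _ _ _ A c e u v hA he s
    refine W981.Sym.near_of_sums _ c e (fun k i a => eval (fun l => (s l : K)) (u k i a))
      (fun k i a => eval (fun l => (s l : K)) (v k i a)) (fun k => ?_) he
    ext a b
    rw [hA k]
    simp only [valueAt, Matrix.map_apply, Matrix.sum_apply, Matrix.add_apply, vecMulVec_apply,
      map_sum, map_add, map_mul]

end Pool.Agent.Results.MP_966f71_lc.SymmetricBlocks
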