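import Mathlib
import Pool.Agent.W925.Sym5

/-!
# Symbolic rank of symmetric matrices of linear forms with coefficients of Witt index at most one

Let `A₀` be any symmetric matrix and let `A₁, ..., A_s` be symmetric matrices of Witt index at most
one (for instance symmetric matrices of rank at most three, or real symmetric matrices with at most
one negative or at most one positive eigenvalue).  Then the rank of `A₀ + x₁ A₁ + ... + x_s A_s` over
the field of rational functions is the minimum of `n - dim U + dim (A₀ U + A₁ U + ... + A_s U)` over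
the subspaces `U` of the space over the base field.

Proof.  For a polynomial vector `v` in the kernel, derivatives of `A v = 0` show that `v` is
isotropic for all `A_i`, that `∂_j v` is orthogonal to `v` for all `A_i`, and that
`h_i(j,l) + h_l(i,j) + h_j(i,l) = 0` for `h_i(j,l) = (∂_j v)ᵀ A_i ∂_l v`.  So `∂_j v` is isotropic for
`A_j`, and the Witt index one implies that `h_j(j,l) = 0`, hence `h_l(j,j) = 0`, hence `A_l ∂_j v` is
proportional to `A_l v`: the vector `A_l v` has a constant direction `w_l`.  If `U` is the smallest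
subspace over the base field whose extension contains the kernel, then `A_l U ⊆ ⟨w_l⟩`, and
`A_l v = - A ∂_l v` shows that `w_l` is in the image of the extension of `U` under `A`.
-/

set_option autoImplicit false

namespace Pool.Agent.Results.MP_966f71_lc.WittIndexOne

open Matrix Module MvPolynomial

/-- the matrix `A₀ + x₁ A₁ + ... + x_s A_s` of polynomials -/
noncomputable def symbolicMatrix {k n : Type} [Field k] {s : ℕ} (A₀ : Matrix n n k)
    (A : Fin s → Matrix n n k) : Matrix n n (MvPolynomial (Fin s) k) :=
  A₀.map C + ∑ i, (X i : MvPolynomial (Fin s) k) • (A i).map C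

/-- the rank of `A₀ + x₁ A₁ + ... + x_s A_s` over the field of rational functions -/
noncomputable def symbolicRank {k n : Type} [Field k] [Fintype n] {s : ℕ} (A₀ : Matrix n n k)
    (A : Fin s → Matrix n n k) : ℕ :=
  ((symbolicMatrix A₀ A).map
    (algebraMap (MvPolynomial (Fin s) k) (FractionRing (MvPolynomial (Fin s) k)))).rank

/-- the sum of the images of `U` under `A₀, A₁, ..., A_s` -/
def imageSum {k n : Type} [Field k] [Fintype n] {s : ℕ} (A₀ : Matrix n n k)
    (A : Fin s → Matrix n n k) (U : Submodule k (n → k)) : Submodule k (n → k) :=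
  U.map A₀.mulVecLin ⊔ ⨆ i, U.map (A i).mulVecLin

/-- the Witt index of the symmetric matrix `S`, modulo its radical, is at most one: totally
isotropic subspaces have dimension at most one modulo the kernel of `S` -/
def WittIndexLEOne {k n : Type} [Field k] [Fintype n] (S : Matrix n n k) : Prop :=
  ∀ V : Submodule k (n → k), (∀ u ∈ V, ∀ v ∈ V, u ⬝ᵥ S *ᵥ v = 0) →
    finrank k (V.map S.mulVecLin) ≤ 1

/-- **Result.** (1) If `A₀` is symmetric and `A₁, ..., A_s` are symmetric of Witt index at most one,
over a field of characteristic zero, then the upper bounds of the rank of `A₀ + ∑ x_i A_i` are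
certified by subspaces over the base field.  (2), (3) Symmetric matrices of rank at most three, and
symmetric matrices over an ordered field which are semidefinite (of any sign) on the orthogonal
space of a vector, have Witt index at most one.  (4) The bounds are best possible: there are three
symmetric matrices of rank at most four and size six such that `∑ x_i A_i` has rank at most four but
no subspace `U` certifies that it is singular. -/
theorem result :
    (∀ {k n : Type} [Field k] [CharZero k] [Fintype n] {s : ℕ} (A₀ : Matrix n n k)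
      (A : Fin s → Matrix n n k), A₀.IsSymm → (∀ i, (A i).IsSymm) →
      (∀ i, WittIndexLEOne (A i)) → ∀ r : ℕ, symbolicRank A₀ A ≤ r ↔
        ∃ U : Submodule k (n → k),
          Fintype.card n + finrank k (imageSum A₀ A U) ≤ r + finrank k U) ∧
    (∀ {k n : Type} [Field k] [Fintype n] (S : Matrix n n k), S.IsSymm → S.rank ≤ 3 →
      WittIndexLEOne S) ∧
    (∀ {k n : Type} [Field k] [LinearOrder k] [IsStrictOrderedRing k] [Fintype n]
      (S : Matrix n n k) (c : n → k), S.IsSymm →
      ((∀ v, c ⬝ᵥ v = 0 → 0 ≤ v ⬝ᵥ S *ᵥ v) ∨ (∀ v, c ⬝ᵥ v = 0 → v ⬝ᵥ S *ᵥ v ≤ 0)) →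
      WittIndexLEOne S) ∧
    (∃ A : Fin 3 → Matrix (Fin 3 ⊕ Fin 3) (Fin 3 ⊕ Fin 3) ℚ,
      (∀ i, (A i).IsSymm ∧ (A i).rank ≤ 4) ∧ symbolicRank 0 A ≤ 4 ∧
      ∀ U : Submodule ℚ (Fin 3 ⊕ Fin 3 → ℚ), finrank ℚ U ≤ finrank ℚ (imageSum 0 A U)) := by
  refine ⟨?_, ?_, ?_, ?_⟩
  · intro k n _ _ _ s A₀ A h₀ h hW r
    constructor
    · intro hr
      refine ⟨W925.Sym.hull A₀ A, ?_⟩
      have h1 := W925.Sym.rank_eq_of_hull h₀ h hW (W925.Sym.hull A₀ A) le_rfl fun _ => le_rfl
      have h2 : (W925.Sym.symbK A₀ A).rank = symbolicRank A₀ A := rfl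
      have h3 : W925.Sym.imageSum A₀ A (W925.Sym.hull A₀ A) =
        imageSum A₀ A (W925.Sym.hull A₀ A) := rfl
      rw [h2, h3] at h1
      omega
    · rintro ⟨U, hU⟩
      have h1 := W925.Sym.rank_le A₀ A U
      have h2 : (W925.Sym.symbK A₀ A).rank = symbolicRank A₀ A := rfl
      have h3 : W925.Sym.imageSum A₀ A U = imageSum A₀ A U := rfl
      rw [h2, h3] at h1
      omega
  · intro k n _ _ S hS hr
    exact W925.Sym.wittLeOne_of_rank hS hr
  · intro k n _ _ _ _ S c hS h
    rcases h with h | h
    · exact W925.Sym.wittLeOne_of_nonneg hS c h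
    · refine W925.Sym.wittLeOne_neg (W925.Sym.wittLeOne_of_nonneg (S := -S) ?_ c fun v hv => ?_)
      · unfold Matrix.IsSymm
        rw [transpose_neg, hS]
      · rw [neg_mulVec, dotProduct_neg]
        exact neg_nonneg.2 (h v hv)
  · exact ⟨W925.Sym.six, fun i => ⟨W925.Sym.six_symm i, W925.Sym.six_rank i⟩,
      W925.Sym.six_symb_rank, W925.Sym.six_images⟩

end Pool.Agent.Results.MP_966f71_lc.WittIndexOne
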